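import Pool.Agent.H754Z.TA.Str
import Pool.Agent.H754Z.ZL.Complete

set_option autoImplicit false
set_option linter.unusedSectionVars false

namespace Pool.Agent.H754Z.TA

open MeasureTheory Filter Topology Pointwise

universe u v

namespace P2

open Pool.Agent.H754Z.ZL

variable {G : Type u} [Group G] [TopologicalSpace G] [IsTopologicalGroup G] [CompactSpace G]
  [T2Space G] [MeasurableSpace G] [BorelSpace G] (μ : Measure G) [μ.IsHaarMeasure]
  [IsProbabilityMeasure μ]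

lemma L_cconv (g : G) (k v : C(G, ℂ)) :
    (Lrep G).π g (cconv μ k v) = cconv μ ((Lrep G).π g k) v := by
  ext x
  rw [Lrep_apply, cconv_apply, cconv_apply,
    ← integral_mul_left_eq_self (fun y => (Lrep G).π g k y * v (y⁻¹ * x)) g]
  congr 1
  funext y
  rw [Lrep_apply]
  congr 2
  · group
  · group

lemma norm_cconv_le (a v : C(G, ℂ)) : ‖cconv μ a v‖ ≤ ‖a‖ * ‖v‖ := by
  rw [ContinuousMap.norm_le _ (by positivity)]
  intro x
  rw [cconv_apply]
  have h := norm_integral_le_of_norm_le_const (μ := μ) (f := fun y => a y * v (y⁻¹ * x))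
    (C := ‖a‖ * ‖v‖) (Eventually.of_forall fun y => by
      rw [norm_mul]
      exact mul_le_mul (a.norm_coe_le_norm y) (v.norm_coe_le_norm _) (norm_nonneg _)
        (norm_nonneg _))
  simpa using h

lemma cconv_sub (a b v : C(G, ℂ)) : cconv μ (a - b) v = cconv μ a v - cconv μ b v := by
  simp only [cconv, map_sub, sub_apply]

lemma Wsp_inv {k : C(G, ℂ)} (hc : IsCen k) {lam : ℂ} {v : C(G, ℂ)} (hv : v ∈ Wsp μ k lam)
    (g : G) : (Lrep G).π g v ∈ Wsp μ k lam := by
  rw [mem_Wsp] at hv ⊢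
  rw [cconv_comm μ hc, ← L_cconv, ← cconv_comm μ hc, hv, map_smul]

lemma est {k : C(G, ℂ)} {lam : ℂ} {v : C(G, ℂ)} (hv : v ∈ Wsp μ k lam) (g : G) :
    ‖lam‖ * ‖(Lrep G).π g v - v‖ ≤ ‖(Lrep G).π g k - k‖ * ‖v‖ := by
  rw [mem_Wsp] at hv
  have h : lam • ((Lrep G).π g v - v) = cconv μ ((Lrep G).π g k - k) v := by
    rw [cconv_sub, ← L_cconv, hv, map_smul, smul_sub]
  rw [← norm_smul, h]
  exact norm_cconv_le μ _ _

/-- The kernel of the left regular representation on an eigenspace. -/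
def Nsub (k : C(G, ℂ)) (lam : ℂ) : Subgroup G where
  carrier := {g | ∀ v ∈ Wsp μ k lam, (Lrep G).π g v = v}
  one_mem' := fun v _ => (Lrep G).one v
  mul_mem' := fun {a b} ha hb v hv => by rw [(Lrep G).mul, hb v hv, ha v hv]
  inv_mem' := fun {a} ha v hv => by
    have h := (Lrep G).mul a⁻¹ a v
    rw [inv_mul_cancel, (Lrep G).one, ha v hv] at h
    exact h.symm

lemma Nsub_closed (k : C(G, ℂ)) (lam : ℂ) : IsClosed (Nsub μ k lam : Set G) := by
  have h : (Nsub μ k lam : Set G) = ⋂ v ∈ Wsp μ k lam, {g | (Lrep G).π g v = v} := by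
    ext g
    simp only [Set.mem_iInter]
    rfl
  rw [h]
  exact isClosed_biInter fun v _ => isClosed_eq ((Lrep G).cont v) continuous_const

lemma nss {k : C(G, ℂ)} (hc : IsCen k) {lam : ℂ} (hlam : lam ≠ 0) :
    ∃ O : Set G, IsOpen O ∧ (Nsub μ k lam : Set G) ⊆ O ∧
      ∀ S : Subgroup G, (S : Set G) ⊆ O → S ≤ Nsub μ k lam := by
  let P : Set G := {g | ∀ v ∈ Wsp μ k lam, ‖(Lrep G).π g v - v‖ ≤ ‖v‖ / 2}
  have hl : 0 < ‖lam‖ := norm_pos_iff.2 hlam
  refine ⟨interior P, isOpen_interior, fun n hn => ?_, fun S hS g hg v hv => ?_⟩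
  · rw [mem_interior_iff_mem_nhds]
    have h1 := exists_approx' (Lrep G) k (half_pos hl)
    have h2 : Tendsto (fun g => n⁻¹ * g) (𝓝 n) (𝓝 1) := by
      have : Continuous (fun g : G => n⁻¹ * g) := by fun_prop
      simpa using this.tendsto n
    filter_upwards [h2 h1] with g hg v hv
    have hg' : ‖(Lrep G).π (n⁻¹ * g) k - k‖ ≤ ‖lam‖ / 2 := hg
    have e : (Lrep G).π g v - v = (Lrep G).π n ((Lrep G).π (n⁻¹ * g) v - v) := by
      rw [map_sub, ← (Lrep G).mul, mul_inv_cancel_left, hn v hv]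
    rw [e]
    refine ((Lrep G).norm_le _ _).trans ?_
    have h3 := est μ hv (n⁻¹ * g)
    have h4 : ‖(Lrep G).π (n⁻¹ * g) k - k‖ * ‖v‖ ≤ ‖lam‖ / 2 * ‖v‖ :=
      mul_le_mul_of_nonneg_right hg' (norm_nonneg _)
    refine le_of_mul_le_mul_left ?_ hl
    linarith
  · have hP : ∀ x ∈ S, x ∈ P := fun x hx => interior_subset (hS hx)
    set w := (Lrep G).π g v - v with hw
    have hwW : w ∈ Wsp μ k lam := Submodule.sub_mem _ (Wsp_inv μ hc hv g) hv
    have hind : ∀ n : ℕ, ‖(Lrep G).π (g ^ n) v - v - (n : ℂ) • w‖ ≤ n * (‖w‖ / 2) := by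
      intro n
      induction n with
      | zero => simp [(Lrep G).one]
      | succ n ih =>
        have e : (Lrep G).π (g ^ (n + 1)) v - v - ((n + 1 : ℕ) : ℂ) • w =
            ((Lrep G).π (g ^ n) v - v - (n : ℂ) • w) + ((Lrep G).π (g ^ n) w - w) := by
          have e1 : (Lrep G).π g v = v + w := by rw [hw]; abel
          rw [pow_succ, (Lrep G).mul, e1, map_add, Nat.cast_succ, add_smul, one_smul]
          abel
        rw [e]
        refine (norm_add_le _ _).trans ?_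
        have h5 := hP _ (S.pow_mem hg n) w hwW
        push_cast
        linarith
    have hb : ∀ n : ℕ, (n : ℝ) * ‖w‖ ≤ ‖v‖ := by
      intro n
      have h1 := hind n
      have h2 := hP _ (S.pow_mem hg n) v hv
      have h3 : ‖(n : ℂ) • w‖ ≤ ‖(Lrep G).π (g ^ n) v - v‖ +
          ‖(Lrep G).π (g ^ n) v - v - (n : ℂ) • w‖ := by
        have := norm_sub_le ((Lrep G).π (g ^ n) v - v)
          ((Lrep G).π (g ^ n) v - v - (n : ℂ) • w)
        rwa [sub_sub_cancel] at this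
      rw [norm_smul, Complex.norm_natCast] at h3
      linarith
    have h0 : w = 0 := by
      by_contra hne
      have hpos : 0 < ‖w‖ := norm_pos_iff.2 hne
      obtain ⟨n, hn⟩ := exists_nat_gt (‖v‖ / ‖w‖)
      rw [div_lt_iff₀ hpos] at hn
      linarith [hb n]
    exact sub_eq_zero.1 h0

lemma sep {h : G} (hh : h ≠ 1) :
    ∃ (k : C(G, ℂ)) (lam : ℂ), IsCen k ∧ lam ≠ 0 ∧ h ∉ Nsub μ k lam := by
  by_contra hcon
  push Not at hcon
  have key : ∀ k : C(G, ℂ), IsCen k → invol k = k → ∀ φ : C(G, ℂ),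
      (Lrep G).π h (cconv μ k φ) = cconv μ k φ := by
    intro k hc hk φ
    let D : Lp ℂ 2 μ →L[ℂ] C(G, ℂ) := ((Lrep G).π h).comp (Aop μ k) - Aop μ k
    let M : Submodule ℂ (Lp ℂ 2 μ) := D.ker
    have hM : IsClosed (M : Set (Lp ℂ 2 μ)) := D.isClosed_ker
    have hmem : ∀ f, f ∈ M ↔ (Lrep G).π h (Aop μ k f) = Aop μ k f := fun f => by
      rw [← sub_eq_zero]
      rfl
    have hsym : (Top μ k).IsSymmetric := fun f g => Top_symm μ hk f g
    have horth := ContinuousLinearMap.orthogonalComplement_iSup_eigenspaces_eq_bot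
      (Top_compact μ k) hsym
    rw [← Submodule.topologicalClosure_eq_top_iff] at horth
    have hle : (⨆ lam, Module.End.eigenspace (Top μ k : Module.End ℂ (Lp ℂ 2 μ)) lam) ≤ M := by
      refine iSup_le fun lam f hf => ?_
      have hf' : Top μ k f = lam • f := Module.End.mem_eigenspace_iff.1 hf
      rw [hmem]
      by_cases hlam : lam = 0
      · rw [hlam, zero_smul] at hf'
        have h1 : Aop μ k f = 0 := by
          apply ContinuousMap.toLp_injective (p := 2) (𝕜 := ℂ) μ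
          rw [map_zero]; exact hf'
        rw [h1, map_zero]
      · have h1 : cconv μ k (Aop μ k f) = lam • Aop μ k f := by
          rw [← Aop_eq μ hk hc]
          show Aop μ k (Top μ k f) = _
          rw [hf', map_smul]
        exact hcon k lam hc hlam _ ((mem_Wsp μ k lam _).2 h1)
    have htop : M = ⊤ := by
      rw [eq_top_iff, ← horth]
      exact Submodule.topologicalClosure_minimal _ hle hM
    have h2 : ContinuousMap.toLp 2 μ ℂ φ ∈ M := by rw [htop]; trivial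
    rw [hmem, Aop_eq μ hk hc] at h2
    exact h2
  have hall : ∀ φ : C(G, ℂ), (Lrep G).π h φ = φ := by
    intro φ
    rw [← sub_eq_zero, ← norm_le_zero_iff]
    refine le_of_forall_pos_le_add fun ε hε => ?_
    obtain ⟨k, hk1, hk2, hk3, hk4, hk5⟩ :=
      exists_approx μ (exists_approx' (Lrep G) φ (half_pos hε))
    have h1 : ‖cconv μ k φ - φ‖ ≤ ε / 2 := (Lrep G).act_sub_le μ k hk3 hk4 φ hk5
    have e : (Lrep G).π h φ - φ = (cconv μ k φ - φ) - (Lrep G).π h (cconv μ k φ - φ) := by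
      rw [map_sub, key k hk1 hk2 φ]
      abel
    rw [e]
    refine (norm_sub_le _ _).trans ?_
    have h2 := (Lrep G).norm_le h (cconv μ k φ - φ)
    linarith
  obtain ⟨f, hf0, hf1, -⟩ := exists_continuous_zero_one_of_isClosed
    (isClosed_singleton (x := h)) (isClosed_singleton (x := (1 : G)))
    (Set.disjoint_singleton.2 hh)
  have h1 := DFunLike.congr_fun (hall ⟨fun x => (f x : ℂ), by fun_prop⟩) h
  rw [Lrep_apply, inv_mul_cancel] at h1
  have h2 : (f 1 : ℂ) = (f h : ℂ) := h1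
  rw [hf1 rfl, hf0 rfl] at h2
  simp at h2

end P2

theorem compact_nss {H : Type u} [Group H] [TopologicalSpace H] [IsTopologicalGroup H]
    [CompactSpace H] [T2Space H] (W : Set H) (hW : W ∈ 𝓝 (1 : H)) :
    ∃ N : Subgroup H, IsClosed (N : Set H) ∧ (N : Set H) ⊆ W ∧
      ∃ O : Set H, IsOpen O ∧ (N : Set H) ⊆ O ∧ ∀ S : Subgroup H, (S : Set H) ⊆ O → S ≤ N := by
  borelize H
  let μ : Measure H := Measure.haarMeasure ⊤
  haveI : IsProbabilityMeasure μ := ⟨by
    have := Measure.haarMeasure_self (G := H) (K₀ := ⊤)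
    simpa using this⟩
  have hK : IsCompact (interior W)ᶜ := isOpen_interior.isClosed_compl.isCompact
  have hex : ∀ h : ↥(interior W)ᶜ, ∃ (N : Subgroup H) (O : Set H), IsClosed (N : Set H) ∧
      (h : H) ∉ N ∧ IsOpen O ∧ (N : Set H) ⊆ O ∧ ∀ S : Subgroup H, (S : Set H) ⊆ O → S ≤ N := by
    intro h
    have hh : (h : H) ≠ 1 := fun e => h.2 (e ▸ mem_interior_iff_mem_nhds.2 hW)
    obtain ⟨k, lam, hc, hlam, hn⟩ := P2.sep μ hh
    obtain ⟨O, hO1, hO2, hO3⟩ := P2.nss μ hc hlam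
    exact ⟨_, O, P2.Nsub_closed μ k lam, hn, hO1, hO2, hO3⟩
  choose N O hN1 hN2 hO1 hO2 hO3 using hex
  obtain ⟨t, ht⟩ := hK.elim_nhds_subcover' (fun x hx => (N ⟨x, hx⟩ : Set H)ᶜ)
    (fun x hx => (hN1 ⟨x, hx⟩).isOpen_compl.mem_nhds (hN2 ⟨x, hx⟩))
  have hcoe : ((⨅ i ∈ t, N i : Subgroup H) : Set H) = ⋂ i ∈ t, (N i : Set H) := by
    simp only [Subgroup.coe_iInf]
  refine ⟨⨅ i ∈ t, N i, ?_, fun x hx => ?_, ⋂ i ∈ t, O i, ?_, ?_, fun S hS => ?_⟩
  · rw [hcoe]
    exact isClosed_biInter fun i _ => hN1 i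
  · by_contra hxW
    have h1 : x ∈ (interior W)ᶜ := fun h => hxW (interior_subset h)
    obtain ⟨i, hi, hxi⟩ := Set.mem_iUnion₂.1 (ht h1)
    rw [hcoe] at hx
    exact hxi (Set.mem_iInter₂.1 hx i hi)
  · exact isOpen_biInter_finset fun i _ => hO1 i
  · rw [hcoe]
    exact Set.iInter₂_mono fun i _ => hO2 i
  · exact le_iInf₂ fun i hi => hO3 i S (hS.trans (Set.biInter_subset_of_mem hi))

end Pool.Agent.H754Z.TA
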